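import Pool.Agent.Lib.MP_4c7f2d_al.Defs
import Pool.Agent.Lib.MP_4c7f2d_al.Final

/-! Base size sets and determining sets of all dihedral groups. -/

open Pool.Agent.Lib.MP_4c7f2d_al in
theorem Pool.Agent.Results.MP_4c7f2d_al.DihedralSets.result (n : ℕ) (hn : 2 ≤ n) :
    baseSizeSet (DihedralGroup n) = Set.Icc 1 (n.primeFactors.card + 1) ∧
    (Good n → determiningSet (DihedralGroup n) = Set.Icc 1 (n.primeFactors.card + 1)) ∧
    (¬ Good n → determiningSet (DihedralGroup n) = Set.Icc 1 n.primeFactors.card) ∧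
    (determiningSet (DihedralGroup n) = baseSizeSet (DihedralGroup n) ↔ Good n) :=
  main_result n hn
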